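import Pool.Agent.Helper26.PS.PL
import Pool.Agent.Helper16.PS.CD

set_option autoImplicit false

namespace PS

open SimpleGraph Finset Pool.Agent.Helper37.PathSys
open Pool.Agent.Helper37.PathSys.PathSystem

open scoped Classical

noncomputable section

variable {n : ℕ} {G : SimpleGraph (Fin n)} {P : PathSystem G}

theorem pipeline (s : ℕ) (hs : 1 ≤ s) (q τ β : ℝ) (hq : 0 < q) (hqn : q ≤ n) (hτ : 0 ≤ τ)
    (hβ : 0 < β) (hβ' : β ^ 32 = q / n) (A : Finset (PathSystem G)) (hA : A ⊆ Al G)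
    (g : SimpleGraph (Fin n) → Arc n → ℝ) (hg : ∀ F a, 0 ≤ g F a) :
    ∑ P ∈ A, g (dirG P) (arcP s P) * τ ^ (LLs s P).card ≤
      31 * Real.exp (2 * (n : ℝ) ^ 2 * s / q) * (n : ℝ) ^ (n / s * n) *
        ∑ d ∈ A.image (fun P => (dirG P, arcP s P)),
          g d.1 d.2 * ∏ p ∈ Rem d.1 d.2, ((kap d.1 d.2 p : ℝ) + 2 * τ * β * n) :=
  pipeline_of_count (fun s hs q τ β hq hqn hτ hβ hβ' W F a ρ A hA =>
    count_data s hs q τ β hq hqn hτ hβ hβ' W F a ρ A hA) s hs q τ β hq hqn hτ hβ hβ' A hA g hg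

end

end PS
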