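import Pool.Agent.Helper21.PS.Basic

/-!
# MP_8013d7_co, module AV: averaging over vertex subsets
-/

set_option autoImplicit false

namespace PS

open SimpleGraph Finset Pool.Agent.Helper37.PathSys
open Pool.Agent.Helper37.PathSys.PathSystem

open scoped Classical

noncomputable section

variable {n : ℕ} {G : SimpleGraph (Fin n)} {P : PathSystem G}

/-- number of vertex subsets containing `u`, `v` and avoiding `x`, `y` -/
theorem count_subsets {u v x y : Fin n} (huv : u ≠ v) (hux : u ≠ x) (huy : u ≠ y)
    (hvx : v ≠ x) (hvy : v ≠ y) (hxy : x ≠ y) :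
    2 ^ n ≤ 16 * ((univ : Finset (Finset (Fin n))).filter
      (fun W => u ∈ W ∧ v ∈ W ∧ x ∉ W ∧ y ∉ W)).card := by
  obtain ⟨D, hD⟩ : ∃ D : Finset (Fin n), D = {u, v, x, y} := ⟨_, rfl⟩
  have hDc : D.card = 4 := by
    rw [hD]
    rw [card_insert_of_notMem, card_insert_of_notMem, card_insert_of_notMem, card_singleton]
    · simpa using hxy
    · simp [hvx, hvy]
    · simp [huv, hux, huy]
  have hn : 4 ≤ n := by
    have := card_le_univ D
    rw [hDc, Fintype.card_fin] at this
    exact this
  have hsub : ((univ \ D).powerset.image fun T => T ∪ {u, v}) ⊆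
      (univ : Finset (Finset (Fin n))).filter (fun W => u ∈ W ∧ v ∈ W ∧ x ∉ W ∧ y ∉ W) := by
    intro W hW
    rw [mem_image] at hW
    obtain ⟨T, hT, rfl⟩ := hW
    rw [mem_powerset] at hT
    rw [mem_filter]
    refine ⟨mem_univ _, by simp, by simp, ?_, ?_⟩
    · intro h
      rw [mem_union] at h
      rcases h with h | h
      · have := hT h
        rw [hD] at this
        simp at this
      · simp at h
        rcases h with h | h
        · exact hux h.symm
        · exact hvx h.symm
    · intro h
      rw [mem_union] at h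
      rcases h with h | h
      · have := hT h
        rw [hD] at this
        simp at this
      · simp at h
        rcases h with h | h
        · exact huy h.symm
        · exact hvy h.symm
  have hinj : Set.InjOn (fun T : Finset (Fin n) => T ∪ {u, v})
      ((univ \ D).powerset : Set (Finset (Fin n))) := by
    intro T hT T' hT' h
    rw [mem_coe, mem_powerset] at hT hT'
    have key : ∀ S : Finset (Fin n), S ⊆ univ \ D → (S ∪ {u, v}) \ {u, v} = S := by
      intro S hS
      rw [union_sdiff_right]
      apply sdiff_eq_self_of_disjoint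
      rw [Finset.disjoint_left]
      intro a ha hb
      have := hS ha
      rw [hD] at this
      simp only [mem_sdiff, mem_univ, true_and, mem_insert, mem_singleton, not_or] at this hb
      rcases hb with hb | hb
      · exact this.1 hb
      · exact this.2.1 hb
    rw [← key T hT, ← key T' hT']
    change (T ∪ {u, v}) = (T' ∪ {u, v}) at h
    rw [h]
  have hcard : ((univ \ D).powerset.image fun T => T ∪ {u, v}).card = 2 ^ (n - 4) := by
    rw [card_image_of_injOn hinj, card_powerset, card_sdiff_of_subset (subset_univ _), hDc,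
      card_univ, Fintype.card_fin]
  have := card_le_card hsub
  rw [hcard] at this
  calc 2 ^ n = 2 ^ (4 + (n - 4)) := by congr 1; omega
    _ = 16 * 2 ^ (n - 4) := by rw [pow_add]; norm_num
    _ ≤ _ := Nat.mul_le_mul_left _ this

/-- the average number of visible pairs -/
theorem sum_Vis (hP : P.Consistent) (s : ℕ) :
    2 ^ n * (LLs s P).card ≤ 16 * ∑ W : Finset (Fin n), (Vis W s P).card := by
  have h1 : ∑ W : Finset (Fin n), (Vis W s P).card =
      ∑ p ∈ LLs s P, ((univ : Finset (Finset (Fin n))).filter (fun W => p.1.1 ∈ W ∧ p.1.2 ∈ W ∧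
        P.nxt p.1.1 p.1.2 ∉ W ∧ P.nxt p.1.2 p.1.1 ∉ W)).card := by
    simp only [Vis, card_filter]
    exact sum_comm
  rw [h1, mul_sum, mul_comm, ← smul_eq_mul, ← sum_const]
  apply sum_le_sum
  intro p hp
  rw [LLs, mem_filter] at hp
  obtain ⟨-, hrem, hne, -⟩ := hp
  rw [mem_Rem] at hrem
  have huv : p.1.1 ≠ p.1.2 := ne_of_lt p.2
  obtain ⟨-, -, h3, h4, -, -⟩ := rem_cases hP huv hrem.1
  exact count_subsets huv (nxt_ne hP huv).symm h4.symm h3.symm (nxt_ne hP huv.symm).symm hne

/-- many subsets are good -/
theorem many_good (hP : P.Consistent) (s : ℕ) :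
    2 ^ n ≤ 31 * ((univ : Finset (Finset (Fin n))).filter
      (fun W => (LLs s P).card ≤ 32 * (Vis W s P).card)).card := by
  obtain ⟨l, hl⟩ : ∃ l, l = (LLs s P).card := ⟨_, rfl⟩
  have hN : ((univ : Finset (Finset (Fin n)))).card = 2 ^ n := by
    rw [card_univ, Fintype.card_finset, Fintype.card_fin]
  rcases Nat.eq_zero_or_pos l with h0 | h0
  · rw [← hl, h0]
    have : ((univ : Finset (Finset (Fin n))).filter
      (fun W => 0 ≤ 32 * (Vis W s P).card)) = univ := by
      apply filter_true_of_mem
      intro W _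
      exact Nat.zero_le _
    rw [this, hN]
    omega
  have h1 := sum_Vis hP s
  rw [← hl] at h1 ⊢
  obtain ⟨g, hg⟩ : ∃ g, g = ((univ : Finset (Finset (Fin n))).filter
      (fun W => l ≤ 32 * (Vis W s P).card)).card := ⟨_, rfl⟩
  obtain ⟨g', hg'⟩ : ∃ g', g' = ((univ : Finset (Finset (Fin n))).filter
      (fun W => ¬ l ≤ 32 * (Vis W s P).card)).card := ⟨_, rfl⟩
  have hgg : g + g' = 2 ^ n := by
    rw [hg, hg', card_filter_add_card_filter_not, hN]
  have h2 : 32 * ∑ W : Finset (Fin n), (Vis W s P).card ≤ 32 * l * g + l * g' := by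
    rw [← sum_filter_add_sum_filter_not univ (fun W => l ≤ 32 * (Vis W s P).card), mul_add]
    apply Nat.add_le_add
    · rw [mul_sum, hg, mul_comm (32 * l), ← smul_eq_mul, ← sum_const]
      apply sum_le_sum
      intro W _
      apply Nat.mul_le_mul_left
      rw [hl]
      exact card_le_card (filter_subset _ _)
    · rw [mul_sum, hg', mul_comm l, ← smul_eq_mul, ← sum_const]
      apply sum_le_sum
      intro W hW
      rw [mem_filter] at hW
      exact (not_le.1 hW.2).le
  rw [← hg]
  have h3 : 2 * (2 ^ n * l) ≤ 32 * l * g + l * g' := by omega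
  have h4 : 2 ^ n * l ≤ (31 * g) * l := by
    have e : 32 * l * g + l * g' = (31 * g) * l + (g + g') * l := by ring
    rw [e, hgg] at h3
    omega
  exact Nat.le_of_mul_le_mul_right h4 h0

theorem exists_W (s : ℕ) (A : Finset (PathSystem G)) (hA : ∀ P ∈ A, P.Consistent)
    (g : PathSystem G → ℝ) (hg : ∀ P ∈ A, 0 ≤ g P) :
    ∃ W : Finset (Fin n), ∑ P ∈ A, g P ≤
      31 * ∑ P ∈ A.filter (fun P => (LLs s P).card ≤ 32 * (Vis W s P).card), g P := by
  have hne : (univ : Finset (Finset (Fin n))).Nonempty := ⟨∅, mem_univ _⟩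
  obtain ⟨W, -, hW⟩ := exists_le_of_sum_le hne (f := fun _ => ∑ P ∈ A, g P)
    (g := fun W => 31 * ∑ P ∈ A.filter
      (fun P => (LLs s P).card ≤ 32 * (Vis W s P).card), g P) (by
    rw [← mul_sum]
    have e : ∑ W : Finset (Fin n), ∑ P ∈ A.filter
        (fun P => (LLs s P).card ≤ 32 * (Vis W s P).card), g P =
        ∑ P ∈ A, (((univ : Finset (Finset (Fin n))).filter
          (fun W => (LLs s P).card ≤ 32 * (Vis W s P).card)).card : ℝ) * g P := by
      simp only [sum_filter]
      rw [sum_comm]
      apply sum_congr rfl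
      intro P _
      rw [← sum_filter, sum_const, nsmul_eq_mul]
    rw [e, sum_const, card_univ, Fintype.card_finset, Fintype.card_fin, nsmul_eq_mul, mul_sum,
      mul_sum]
    apply sum_le_sum
    intro P hP
    rw [← mul_assoc]
    apply mul_le_mul_of_nonneg_right _ (hg P hP)
    exact_mod_cast many_good (hA P hP) s)
  exact ⟨W, hW⟩

end

end PS
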