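import Pool.Agent.Helper26.PS.AV

/-!
# MP_8013d7_co, module PL: the counting pipeline
-/

set_option autoImplicit false

namespace PS

open SimpleGraph Finset Pool.Agent.Helper37.PathSys
open Pool.Agent.Helper37.PathSys.PathSystem

open scoped Classical

noncomputable section

variable {n : ℕ} {G : SimpleGraph (Fin n)} {P : PathSystem G}

/-- at most `n / s` heavy first vertices for every `y` -/
theorem PL_row {s : ℕ} (hs : 1 ≤ s) (y : Fin n) :
    (univ.filter fun x => ∃ u, arcP s P y u = some x).card ≤ n / s := by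
  rw [Nat.le_div_iff_mul_le (by omega)]
  obtain ⟨T, hT⟩ : ∃ T : Finset (Fin n), T = univ.filter fun x => ∃ u, arcP s P y u = some x :=
    ⟨_, rfl⟩
  rw [← hT]
  have hdisj : (T : Set (Fin n)).PairwiseDisjoint (fun x => Bs P x y) := by
    intro x _ x' _ hxx'
    rw [Function.onFun, Finset.disjoint_left]
    intro u hu hu'
    rw [mem_Bs] at hu hu'
    exact hxx' (hu.2.symm.trans hu'.2)
  have h1 : (T.biUnion fun x => Bs P x y).card = ∑ x ∈ T, (Bs P x y).card := card_biUnion hdisj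
  have h2 : (T.biUnion fun x => Bs P x y).card ≤ n := by
    have := card_le_univ (T.biUnion fun x => Bs P x y)
    rwa [Fintype.card_fin] at this
  have h3 : T.card * s ≤ ∑ x ∈ T, (Bs P x y).card := by
    rw [← smul_eq_mul, ← sum_const]
    apply sum_le_sum
    intro x hx
    rw [hT, mem_filter] at hx
    exact ((hv_iff hs).2 hx.2).2
  omega

/-- number of possible tables of last vertices -/
theorem PL_rev {s : ℕ} (hs : 1 ≤ s) (a : Arc n) (B : Finset (PathSystem G))
    (hB : ∀ P ∈ B, arcP s P = a) :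
    ((B.image (revP s)).card : ℝ) ≤ (n : ℝ) ^ (n / s * n) := by
  rcases B.eq_empty_or_nonempty with rfl | ⟨P₀, hP₀⟩
  · simp only [image_empty, card_empty, Nat.cast_zero]
    positivity
  obtain ⟨T, hT⟩ : ∃ T : Finset (Fin n × Fin n), T = univ.filter fun q => ∃ u, a q.1 u = some q.2 :=
    ⟨_, rfl⟩
  have hTc : T.card ≤ n / s * n := by
    have h1 : T.card = ∑ y : Fin n, (univ.filter fun x => ∃ u, a y u = some x).card := by
      rw [hT, card_filter, Fintype.sum_prod_type]
      apply sum_congr rfl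
      intro y _
      rw [card_filter]
    rw [h1]
    have h2 : ∀ y : Fin n, (univ.filter fun x => ∃ u, a y u = some x).card ≤ n / s := by
      intro y
      rw [← hB P₀ hP₀]
      exact PL_row hs y
    calc ∑ y : Fin n, (univ.filter fun x => ∃ u, a y u = some x).card
        ≤ ∑ _y : Fin n, n / s := sum_le_sum fun y _ => h2 y
      _ = n / s * n := by rw [sum_const, card_univ, Fintype.card_fin, smul_eq_mul, mul_comm]
  have hcard : (B.image (revP s)).card ≤ Fintype.card (T → Fin n) := by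
    rw [← card_univ]
    apply card_le_card_of_injOn (fun ρ : Fin n → Fin n → Fin n => fun t : T => ρ t.1.1 t.1.2)
      (fun _ _ => mem_coe.2 (mem_univ _))
    intro ρ hρ ρ' hρ' h
    rw [mem_coe, mem_image] at hρ hρ'
    obtain ⟨P, hP, rfl⟩ := hρ
    obtain ⟨P', hP', rfl⟩ := hρ'
    funext y x
    by_cases hyx : ∃ u, a y u = some x
    · have := congrFun h ⟨(y, x), by rw [hT, mem_filter]; exact ⟨mem_univ _, hyx⟩⟩
      exact this
    · have h1 : ¬ hv s P x y := by
        rw [hv_iff hs, hB P hP]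
        exact hyx
      have h2 : ¬ hv s P' x y := by
        rw [hv_iff hs, hB P' hP']
        exact hyx
      rw [revP, revP, if_neg h1, if_neg h2]
  rw [Fintype.card_fun, Fintype.card_fin, Fintype.card_coe] at hcard
  have hcard' : ((B.image (revP s)).card : ℝ) ≤ (n : ℝ) ^ T.card := by exact_mod_cast hcard
  refine hcard'.trans ?_
  rcases Nat.eq_zero_or_pos n with h0 | h0
  · subst h0
    have : T.card = 0 := by
      have := card_le_univ T
      simpa using this
    rw [this]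
    simp
  · exact pow_le_pow_right₀ (by exact_mod_cast h0) hTc

/-- the statement of `count_data` for the graph `G` -/
def CountData (G : SimpleGraph (Fin n)) : Prop :=
  ∀ (s : ℕ), 1 ≤ s → ∀ (q τ β : ℝ), 0 < q → q ≤ n → 0 ≤ τ → 0 < β → β ^ 32 = q / n →
    ∀ (W : Finset (Fin n)) (F : SimpleGraph (Fin n)) (a : Arc n) (ρ : Fin n → Fin n → Fin n)
      (A : Finset (PathSystem G)), (∀ P ∈ A, P.Consistent ∧ dirG P = F ∧ arcP s P = a ∧
        revP s P = ρ ∧ (LLs s P).card ≤ 32 * (Vis W s P).card) →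
      ∑ P ∈ A, τ ^ (LLs s P).card ≤ Real.exp (2 * (n : ℝ) ^ 2 * s / q) *
        ∏ p ∈ Rem F a, ((kap F a p : ℝ) + 2 * τ * β * n)

theorem pipeline_of_count (count_data : CountData G) (s : ℕ) (hs : 1 ≤ s) (q τ β : ℝ) (hq : 0 < q) (hqn : q ≤ n) (hτ : 0 ≤ τ)
    (hβ : 0 < β) (hβ' : β ^ 32 = q / n) (A : Finset (PathSystem G)) (hA : A ⊆ Al G)
    (g : SimpleGraph (Fin n) → Arc n → ℝ) (hg : ∀ F a, 0 ≤ g F a) :
    ∑ P ∈ A, g (dirG P) (arcP s P) * τ ^ (LLs s P).card ≤
      31 * Real.exp (2 * (n : ℝ) ^ 2 * s / q) * (n : ℝ) ^ (n / s * n) *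
        ∑ d ∈ A.image (fun P => (dirG P, arcP s P)),
          g d.1 d.2 * ∏ p ∈ Rem d.1 d.2, ((kap d.1 d.2 p : ℝ) + 2 * τ * β * n) := by
  have hcons : ∀ P ∈ A, P.Consistent := fun P hP => (mem_filter.1 (hA hP)).2
  obtain ⟨W, hW⟩ := exists_W s A hcons (fun P => g (dirG P) (arcP s P) * τ ^ (LLs s P).card)
    (fun P _ => mul_nonneg (hg _ _) (by positivity))
  refine hW.trans ?_
  obtain ⟨A', hA'⟩ : ∃ A', A' = A.filter (fun P => (LLs s P).card ≤ 32 * (Vis W s P).card) :=
    ⟨_, rfl⟩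
  rw [← hA']
  obtain ⟨X, hX⟩ : ∃ X, X = Real.exp (2 * (n : ℝ) ^ 2 * s / q) := ⟨_, rfl⟩
  have hX0 : 0 < X := by rw [hX]; exact Real.exp_pos _
  obtain ⟨QQ, hQQ⟩ : ∃ QQ : SimpleGraph (Fin n) → Arc n → ℝ, QQ = fun F a =>
    ∏ p ∈ Rem F a, ((kap F a p : ℝ) + 2 * τ * β * n) := ⟨_, rfl⟩
  have hQQ0 : ∀ F a, 0 ≤ QQ F a := by
    intro F a
    rw [hQQ]
    exact prod_nonneg fun p _ => by positivity
  have hclass : ∀ d ∈ A'.image (fun P => (dirG P, arcP s P)),
      ∑ P ∈ A'.filter (fun P => (dirG P, arcP s P) = d), g (dirG P) (arcP s P) *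
        τ ^ (LLs s P).card ≤ g d.1 d.2 * ((n : ℝ) ^ (n / s * n) * (X * QQ d.1 d.2)) := by
    rintro ⟨F, a⟩ _
    obtain ⟨D, hD⟩ : ∃ D, D = A'.filter (fun P => (dirG P, arcP s P) = (F, a)) := ⟨_, rfl⟩
    rw [← hD]
    have hDmem : ∀ P ∈ D, P ∈ A' ∧ dirG P = F ∧ arcP s P = a := by
      intro P hP
      rw [hD, mem_filter] at hP
      exact ⟨hP.1, (Prod.ext_iff.1 hP.2).1, (Prod.ext_iff.1 hP.2).2⟩
    have e1 : ∑ P ∈ D, g (dirG P) (arcP s P) * τ ^ (LLs s P).card =
        g F a * ∑ P ∈ D, τ ^ (LLs s P).card := by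
      rw [mul_sum]
      apply sum_congr rfl
      intro P hP
      rw [(hDmem P hP).2.1, (hDmem P hP).2.2]
    rw [e1]
    apply mul_le_mul_of_nonneg_left _ (hg F a)
    have e2 : ∑ P ∈ D, τ ^ (LLs s P).card = ∑ ρ ∈ D.image (revP s),
        ∑ P ∈ D.filter (fun P => revP s P = ρ), τ ^ (LLs s P).card :=
      (sum_fiberwise_of_maps_to (fun P hP => mem_image_of_mem _ hP) _).symm
    rw [e2]
    calc ∑ ρ ∈ D.image (revP s), ∑ P ∈ D.filter (fun P => revP s P = ρ), τ ^ (LLs s P).card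
        ≤ ∑ _ρ ∈ D.image (revP s), X * QQ F a := by
          apply sum_le_sum
          intro ρ _
          rw [hX, hQQ]
          apply count_data s hs q τ β hq hqn hτ hβ hβ' W F a ρ
          intro P hP
          rw [mem_filter] at hP
          obtain ⟨h1, h2, h3⟩ := hDmem P hP.1
          rw [hA', mem_filter] at h1
          exact ⟨hcons P h1.1, h2, h3, hP.2, h1.2⟩
      _ = ((D.image (revP s)).card : ℝ) * (X * QQ F a) := by rw [sum_const, nsmul_eq_mul]
      _ ≤ (n : ℝ) ^ (n / s * n) * (X * QQ F a) := by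
          apply mul_le_mul_of_nonneg_right _ (mul_nonneg hX0.le (hQQ0 F a))
          exact PL_rev hs a D fun P hP => (hDmem P hP).2.2
  have e3 : ∑ P ∈ A', g (dirG P) (arcP s P) * τ ^ (LLs s P).card =
      ∑ d ∈ A'.image (fun P => (dirG P, arcP s P)),
        ∑ P ∈ A'.filter (fun P => (dirG P, arcP s P) = d), g (dirG P) (arcP s P) *
          τ ^ (LLs s P).card :=
    (sum_fiberwise_of_maps_to (fun P hP =>
      mem_image_of_mem (fun P => (dirG P, arcP s P)) hP) _).symm
  have hsub : A'.image (fun P => (dirG P, arcP s P)) ⊆ A.image (fun P => (dirG P, arcP s P)) := by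
    apply image_subset_image
    rw [hA']
    exact filter_subset _ _
  calc 31 * ∑ P ∈ A', g (dirG P) (arcP s P) * τ ^ (LLs s P).card
      = 31 * ∑ d ∈ A'.image (fun P => (dirG P, arcP s P)),
        ∑ P ∈ A'.filter (fun P => (dirG P, arcP s P) = d), g (dirG P) (arcP s P) *
          τ ^ (LLs s P).card := by rw [e3]
    _ ≤ 31 * ∑ d ∈ A'.image (fun P => (dirG P, arcP s P)),
        g d.1 d.2 * ((n : ℝ) ^ (n / s * n) * (X * QQ d.1 d.2)) := by
        apply mul_le_mul_of_nonneg_left (sum_le_sum hclass) (by norm_num)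
    _ ≤ 31 * ∑ d ∈ A.image (fun P => (dirG P, arcP s P)),
        g d.1 d.2 * ((n : ℝ) ^ (n / s * n) * (X * QQ d.1 d.2)) := by
        apply mul_le_mul_of_nonneg_left _ (by norm_num)
        apply sum_le_sum_of_subset_of_nonneg hsub
        intro d _ _
        have := hQQ0 d.1 d.2
        have := hg d.1 d.2
        positivity
    _ = 31 * X * (n : ℝ) ^ (n / s * n) * ∑ d ∈ A.image (fun P => (dirG P, arcP s P)),
        g d.1 d.2 * QQ d.1 d.2 := by
        rw [mul_sum, mul_sum]
        apply sum_congr rfl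
        intro d _
        ring
    _ = _ := by rw [hX, hQQ]

end

end PS
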